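import Mathlib

/-!
# Brick wall triangulations: definitions and statements of the steps

Project BW (MP_92f966_pr, seat helper827).  The vertex set is `ℤ × ℤ`, a vertex is `(t, i)`
(row `t`, index `i` in the row).
-/

set_option autoImplicit false

open MeasureTheory Filter Topology

namespace Pool.Agent.W827.BW

/-! ### graphs made of rows -/

/-- `(t, i)` is joined to `(t, i + 1)`, and to the `(t + 1, j)` with `α t i ≤ j ≤ α t (i + 1)`. -/
def RowRel (α : ℤ → ℤ → ℤ) (a b : ℤ × ℤ) : Prop :=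
  (b.1 = a.1 ∧ b.2 = a.2 + 1) ∨ (b.1 = a.1 + 1 ∧ α a.1 a.2 ≤ b.2 ∧ b.2 ≤ α a.1 (a.2 + 1))

/-- the graph on `ℤ × ℤ` generated by `RowRel α` -/
def RowGraph (α : ℤ → ℤ → ℤ) : SimpleGraph (ℤ × ℤ) := SimpleGraph.fromRel (RowRel α)

/-- `G` has a proper drawing in the plane in which every face is bounded by a triangle of `G`:
vertices are distinct points `φ v`, every edge `uv` is drawn as the simple arc `γ u v`, a point of
an arc which is (the point of) a vertex is an endpoint of it, different arcs meet only in vertices,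
every compact set meets only finitely many arcs, and the boundary of every connected component of
the complement of the drawing is the union of the three arcs of a triangle of `G`. -/
def IsPlaneTriangulation {V : Type} (G : SimpleGraph V) : Prop :=
  ∃ (φ : V → ℂ) (γ : V → V → ℝ → ℂ),
    Function.Injective φ ∧
    (∀ u v, G.Adj u v → ContinuousOn (γ u v) (Set.Icc 0 1) ∧ Set.InjOn (γ u v) (Set.Icc 0 1) ∧
        γ u v 0 = φ u ∧ γ u v 1 = φ v ∧ γ u v '' Set.Icc 0 1 = γ v u '' Set.Icc 0 1) ∧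
    (∀ u v w, G.Adj u v → ∀ s ∈ Set.Icc (0:ℝ) 1, γ u v s = φ w → w = u ∨ w = v) ∧
    (∀ u v x y, G.Adj u v → G.Adj x y → ∀ s ∈ Set.Icc (0:ℝ) 1, ∀ t ∈ Set.Icc (0:ℝ) 1,
        γ u v s = γ x y t → (u = x ∧ v = y) ∨ (u = y ∧ v = x) ∨ ∃ w, γ u v s = φ w) ∧
    (∀ K : Set ℂ, IsCompact K →
        {p : V × V | G.Adj p.1 p.2 ∧ (γ p.1 p.2 '' Set.Icc 0 1 ∩ K).Nonempty}.Finite) ∧
    (∀ z : ℂ, (∀ u v, G.Adj u v → z ∉ γ u v '' Set.Icc 0 1) →
        ∃ a b c, G.Adj a b ∧ G.Adj b c ∧ G.Adj c a ∧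
          frontier (connectedComponentIn
              {y : ℂ | ∀ u v, G.Adj u v → y ∉ γ u v '' Set.Icc 0 1} z) =
            γ a b '' Set.Icc 0 1 ∪ γ b c '' Set.Icc 0 1 ∪ γ c a '' Set.Icc 0 1)

/-- the place of the vertex `(t, i)` in the plane: the point `i + t * I` -/
noncomputable def place (a : ℤ × ℤ) : ℂ := (a.2 : ℂ) + (a.1 : ℂ) * Complex.I

/-- the straight edge from `a` to `b` -/
noncomputable def arc (a b : ℤ × ℤ) (s : ℝ) : ℂ := AffineMap.lineMap (place a) (place b) s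

/-- the union of all edges of the row graph -/
def Draw (α : ℤ → ℤ → ℤ) : Set ℂ := {z | ∃ a b, RowRel α a b ∧ z ∈ segment ℝ (place a) (place b)}

/-- standing assumptions on `α` -/
structure Good (α : ℤ → ℤ → ℤ) : Prop where
  mono : ∀ t, Monotone (α t)
  below : ∀ t M, ∃ i, α t i ≤ M
  above : ∀ t M, ∃ i, M ≤ α t i

/-- TOP1: if the three sides of a (non-degenerate) triangle belong to `Γ` and `Γ` misses the
interior of the triangle, then the interior is a component of the complement of `Γ`. -/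
def S_TOP1 : Prop := ∀ (A B C : ℂ), AffineIndependent ℝ ![A, B, C] → ∀ (Γ : Set ℂ),
  segment ℝ A B ⊆ Γ → segment ℝ B C ⊆ Γ → segment ℝ C A ⊆ Γ →
  interior (convexHull ℝ {A, B, C}) ∩ Γ = ∅ → ∀ z ∈ interior (convexHull ℝ {A, B, C}),
  frontier (connectedComponentIn Γᶜ z) = segment ℝ A B ∪ segment ℝ B C ∪ segment ℝ C A

/-- TOP2: every point off the drawing lies in the interior of a triangle of the graph whose interior
misses the drawing. -/
def S_TOP2 : Prop := ∀ α, Good α → ∀ z : ℂ, z ∉ Draw α → ∃ a b c : ℤ × ℤ,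
  (RowGraph α).Adj a b ∧ (RowGraph α).Adj b c ∧ (RowGraph α).Adj c a ∧
  AffineIndependent ℝ ![place a, place b, place c] ∧
  interior (convexHull ℝ {place a, place b, place c}) ∩ Draw α = ∅ ∧
  z ∈ interior (convexHull ℝ {place a, place b, place c})

/-- TOP3: no crossings. -/
def S_TOP3 : Prop := ∀ α, Good α →
  (∀ u v w, (RowGraph α).Adj u v → place w ∈ segment ℝ (place u) (place v) → w = u ∨ w = v) ∧
  (∀ u v x y, (RowGraph α).Adj u v → (RowGraph α).Adj x y → ∀ z : ℂ,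
    z ∈ segment ℝ (place u) (place v) → z ∈ segment ℝ (place x) (place y) →
    (u = x ∧ v = y) ∨ (u = y ∧ v = x) ∨ ∃ w, z = place w)

/-- TOP4: local finiteness. -/
def S_TOP4 : Prop := ∀ α, Good α → ∀ K : Set ℂ, IsCompact K →
  {p : (ℤ × ℤ) × (ℤ × ℤ) | (RowGraph α).Adj p.1 p.2 ∧
    (segment ℝ (place p.1) (place p.2) ∩ K).Nonempty}.Finite

/-- TOP: the row graph is a plane triangulation. -/
def S_TOP : Prop := ∀ α, Good α → IsPlaneTriangulation (RowGraph α)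

/-- CONN -/
def S_CONN : Prop := ∀ α, Good α → (RowGraph α).Connected

/-! ### brick walls -/

/-- The lowest up-neighbour of the brick `(t, i)` of the wall with resolution `w`: row `t` consists
of the bricks `[i D^(-w t), (i+1) D^(-w t))`. -/
def al (D : ℤ) (w : ℤ → ℤ) (t i : ℤ) : ℤ := if w (t + 1) = w t + 1 then i * D - 1 else i / D

/-- consecutive resolutions differ by exactly one -/
def Steps (w : ℤ → ℤ) : Prop := ∀ t, w (t + 1) = w t + 1 ∨ w (t + 1) = w t - 1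

/-- the brick wall graph -/
def Wall (D : ℤ) (w : ℤ → ℤ) : SimpleGraph (ℤ × ℤ) := RowGraph (al D w)

/-- GOOD -/
def S_GOOD : Prop := ∀ (D : ℤ) (w : ℤ → ℤ), 2 ≤ D → Good (al D w)

/-- DEG -/
def S_DEG : Prop := ∀ (D : ℤ) (w : ℤ → ℤ), 2 ≤ D → ∀ v,
  ((Wall D w).neighborSet v).Finite ∧ (((Wall D w).neighborSet v).ncard : ℤ) ≤ 2 * D + 4

/-- the edge boundary of a set of vertices (each boundary edge is listed once, from inside to
outside) -/
def edgeBoundary {V : Type} (G : SimpleGraph V) (A : Set V) : Set (V × V) :=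
  {p | p.1 ∈ A ∧ p.2 ∉ A ∧ G.Adj p.1 p.2}

/-- ISO -/
def S_ISO : Prop := ∀ (D : ℕ) (w : ℤ → ℤ) (Om : ℕ → ℕ), 2 ≤ D → Steps w → Monotone Om →
  (∀ s t : ℤ, |w s - w t| ≤ Om (s - t).natAbs) → ∀ A : Set (ℤ × ℤ), A.Finite →
  A.ncard ≤ (edgeBoundary (Wall D w) A).ncard ^ 2 * D ^ Om (edgeBoundary (Wall D w) A).ncard

/-- the isoperimetric assumption (I) -/
def IsoGrowth {V : Type} (G : SimpleGraph V) : Prop :=
  ∃ f : ℕ → ℝ, (∀ n, 0 ≤ f n) ∧ Tendsto f atTop atTop ∧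
    ∀ A : Set V, A.Finite → f A.ncard * Real.log A.ncard ≤ ((edgeBoundary G A).ncard : ℝ)

/-- ISOF -/
def S_ISOF : Prop := ∀ (V : Type) (G : SimpleGraph V), Infinite V → ∀ (D : ℕ) (Om : ℕ → ℕ), 2 ≤ D →
  (∀ ε : ℝ, 0 < ε → ∃ C : ℝ, ∀ n : ℕ, (Om n : ℝ) ≤ ε * n + C) →
  (∀ A : Set V, A.Finite →
    A.ncard ≤ (edgeBoundary G A).ncard ^ 2 * D ^ Om (edgeBoundary G A).ncard) →
  IsoGrowth G

/-! ### the resolution -/

/-- `0, 1, 4, 13, 40, ...` -/
def uu : ℕ → ℕ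
  | 0 => 0
  | n + 1 => 3 * uu n + 1

/-- the level of `t`: the largest `n` with `uu n ≤ t` -/
def lev (t : ℕ) : ℕ := Nat.log 3 (2 * t + 1)

/-- the tent map on `[uu n, 3 * uu n]` -/
def rr (t : ℕ) : ℕ := min (t - uu (lev t)) (3 * uu (lev t) - t)

/-- the ascending profile, with fuel -/
def UF : ℕ → ℕ → ℕ
  | 0, _ => 0
  | k + 1, t => if t = 0 then 0 else lev t + UF k (rr t)

/-- the ascending profile `U t = lev t + U (rr t)`, `U 0 = 0` -/
def UU (t : ℕ) : ℕ := UF t t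

/-- the resolution of the rows: `w t = - lev |t| + U (rr |t|)` -/
def ww (t : ℤ) : ℤ := -(lev t.natAbs : ℤ) + UU (rr t.natAbs)

/-- LEV -/
def S_LEV : Prop := ∀ t n : ℕ, lev t = n ↔ uu n ≤ t ∧ t < uu (n + 1)

/-- UREC -/
def S_UREC : Prop := UU 0 = 0 ∧ ∀ t : ℕ, 0 < t → rr t < t ∧ UU t = lev t + UU (rr t)

/-- STEP -/
def S_STEP : Prop := Steps ww

/-- OSC -/
def S_OSC : Prop := ∀ s t : ℤ, |ww s - ww t| ≤ (((lev (s - t).natAbs + 2) ^ 2 : ℕ) : ℤ)

/-- SUBL -/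
def S_SUBL : Prop := Monotone (fun n : ℕ => (lev n + 2) ^ 2) ∧
  ∀ ε : ℝ, 0 < ε → ∃ C : ℝ, ∀ n : ℕ, (((lev n + 2) ^ 2 : ℕ) : ℝ) ≤ ε * n + C

/-- `Exc w a b`: the stretch of `w` from `a` to `b` is an excursion above the level `w a = w b` of
the recursive form used in the construction. -/
inductive Exc (w : ℤ → ℤ) : ℤ → ℤ → Prop
  | single (a : ℤ) : w (a + 1) = w a + 1 → w (a + 2) = w a → Exc w a (a + 2)
  | quad (a b c d : ℤ) : w (a + 1) = w a + 1 → Exc w (a + 1) b → Exc w b c → Exc w c (d - 1) →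
      w d = w a → Exc w a d

/-- EXC -/
def S_EXC : Prop := ∀ m : ℕ, 1 ≤ m →
  Exc ww (-(3 * uu m)) (-(uu m)) ∧ Exc ww (-(uu m)) (uu m) ∧ Exc ww (uu m) (3 * uu m) ∧
  ww (-(3 * uu m)) = -m ∧ ww (-(uu m)) = -m ∧ ww (uu m) = -m ∧ ww (3 * uu m) = -m

/-- EXCB: elementary properties of excursions. -/
def S_EXCB : Prop := ∀ (w : ℤ → ℤ) (a b : ℤ), Exc w a b →
  a < b ∧ w a = w b ∧ ∀ t, a < t → t < b → w a < w t

/-! ### percolation -/

/-- The law of Bernoulli site percolation with parameter `p`: the sites are independent, each is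
open (`true`) with probability `p`. -/
noncomputable def siteMeasure (V : Type) (p : unitInterval) : Measure (V → Bool) :=
  Measure.infinitePi (fun _ : V => ProbabilityTheory.bernoulliMeasure true false p)

/-- brick `i` of row `t` and brick `j` of row `t + 1` are nested -/
def Nest (D : ℤ) (w : ℤ → ℤ) (t i j : ℤ) : Prop :=
  (w (t + 1) = w t + 1 ∧ j / D = i) ∨ (w (t + 1) = w t - 1 ∧ i / D = j)

/-- there is a closed monotone path from the brick `(a, k)` to the brick `(b, k)` (the two ends need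
not be closed) -/
def Cross (D : ℤ) (w : ℤ → ℤ) (a b k : ℤ) : Set (ℤ × ℤ → Bool) :=
  {ω | ∃ β : ℤ → ℤ, β a = k ∧ β b = k ∧ (∀ t, a ≤ t → t < b → Nest D w t (β t) (β (t + 1))) ∧
    ∀ t, a < t → t < b → ω (t, β t) = false}

/-- REL: crossings of excursions are likely -/
def S_REL : Prop := ∀ (D : ℕ) (w : ℤ → ℤ) (p : unitInterval), 2 ≤ D →
  (1 - (1 - (p : ℝ)) ^ 4 / 8) ^ D ≤ 1 / 2 → ∀ a b : ℤ, Exc w a b → ∀ k : ℤ,
  1 / 2 ≤ (siteMeasure (ℤ × ℤ) p).real (Cross D w a b k)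

/-- closed monotone path from `(-h, j)` to `(h, j)` (all of it closed) -/
def Path (D : ℤ) (w : ℤ → ℤ) (h j : ℤ) : Set (ℤ × ℤ → Bool) :=
  {ω | ∃ β : ℤ → ℤ, β (-h) = j ∧ β h = j ∧ (∀ t, -h ≤ t → t < h → Nest D w t (β t) (β (t + 1))) ∧
    ∀ t, -h ≤ t → t ≤ h → ω (t, β t) = false}

/-- the closed ring number `m` -/
def Ring (D : ℤ) (w : ℤ → ℤ) (m : ℕ) : Set (ℤ × ℤ → Bool) :=
  {ω | ω ((uu (m + 1) : ℤ), 0) = false ∧ ω ((uu (m + 1) : ℤ), -1) = false ∧
    ω (-(uu (m + 1) : ℤ), 0) = false ∧ ω (-(uu (m + 1) : ℤ), -1) = false} ∩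
  Path D w (3 * uu m) 1 ∩ Path D w (3 * uu m) (-2)

/-- RING: almost surely infinitely many rings are closed -/
def S_RING : Prop := ∀ (D : ℕ) (p : unitInterval), 2 ≤ D → p < 1 →
  (1 - (1 - (p : ℝ)) ^ 4 / 8) ^ D ≤ 1 / 2 →
  ∀ᵐ ω ∂(siteMeasure (ℤ × ℤ) p), ∀ M : ℕ, ∃ m, M ≤ m ∧ 1 ≤ m ∧ ω ∈ Ring D ww m

/-- BLOCK: a closed ring stops the open clusters from inside -/
def S_BLOCK : Prop := ∀ (D : ℕ), 2 ≤ D → ∀ m : ℕ, 1 ≤ m → ∀ ω ∈ Ring D ww m, ∀ S : Set (ℤ × ℤ),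
  (∀ v ∈ S, ω v = true) → ((Wall D ww).induce S).Connected →
  (∃ v ∈ S, |v.1| ≤ 3 * uu m ∧ -((D : ℤ) ^ (ww v.1 + m).toNat) ≤ v.2 ∧
    v.2 < (D : ℤ) ^ (ww v.1 + m).toNat) → S.Finite

end Pool.Agent.W827.BW
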