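import Mathlib
import Pool.Agent.W827.BW.Stm

/-! # Assembly of the brick wall disproof -/

set_option autoImplicit false

open MeasureTheory Filter Topology

namespace Pool.Agent.W827.BW

/-- some open cluster is infinite -/
def HasInf {V : Type} (G : SimpleGraph V) (ω : V → Bool) : Prop :=
  ∃ S : Set V, S.Infinite ∧ (∀ v ∈ S, ω v = true) ∧ (G.induce S).Connected

/-- critical probability -/
noncomputable def pcr {V : Type} (G : SimpleGraph V) : ℝ :=
  sInf {p : ℝ | ∃ h : p ∈ Set.Icc (0 : ℝ) 1, 0 < siteMeasure V ⟨p, h⟩ {ω | HasInf G ω}}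

theorem le_uu (m : ℕ) : m ≤ uu m := by
  induction m with
  | zero => exact Nat.zero_le _
  | succ n ih => show n + 1 ≤ 3 * uu n + 1; omega

theorem no_perc (hR : S_RING) (hB : S_BLOCK) (D : ℕ) (hD : 2 ≤ D) (p : unitInterval) (hp : p < 1)
    (hq : (1 - (1 - (p : ℝ)) ^ 4 / 8) ^ D ≤ 1 / 2) :
    siteMeasure (ℤ × ℤ) p {ω | HasInf (Wall D ww) ω} = 0 := by
  have h : ∀ᵐ ω ∂(siteMeasure (ℤ × ℤ) p), ω ∈ ({ω | HasInf (Wall D ww) ω}ᶜ : Set _) := by
    filter_upwards [hR D p hD hp hq] with ω hω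
    rintro ⟨S, hS, hop, hc⟩
    obtain ⟨v, hv⟩ := hS.nonempty
    obtain ⟨m, hm, hm1, hmR⟩ := hω (v.1.natAbs + v.2.natAbs + (ww v.1).natAbs + 1)
    refine hS (hB D hD m hm1 ω hmR S hop hc ⟨v, hv, ?_, ?_⟩)
    · have := le_uu m
      rw [← Int.natCast_natAbs]
      have h1 : v.1.natAbs ≤ 3 * uu m := by omega
      exact_mod_cast h1
    · have h1 : v.2.natAbs < (ww v.1 + m).toNat := by omega
      have h2 : (ww v.1 + m).toNat < D ^ (ww v.1 + m).toNat := Nat.lt_pow_self (by omega)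
      have h3 : v.2.natAbs < D ^ (ww v.1 + m).toNat := h1.trans h2
      have h4 : (v.2.natAbs : ℤ) < (D : ℤ) ^ (ww v.1 + m).toNat := by exact_mod_cast h3
      omega
  have := ae_iff.1 h
  simpa using this

theorem exists_D (q : ℝ) (h0 : 0 ≤ q) (h1 : q < 1) : ∃ D : ℕ, 2 ≤ D ∧ q ^ D ≤ 1 / 2 := by
  obtain ⟨n, hn⟩ := exists_pow_lt_of_lt_one (show (0 : ℝ) < 1 / 2 by norm_num) h1
  refine ⟨n + 2, by omega, ?_⟩
  calc q ^ (n + 2) ≤ q ^ n := pow_le_pow_of_le_one h0 h1.le (by omega)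
    _ ≤ 1 / 2 := hn.le

theorem one_mem {V : Type} [Countable V] [Infinite V] (G : SimpleGraph V) (hG : G.Connected) :
    0 < siteMeasure V 1 {ω | HasInf G ω} := by
  have hprob : IsProbabilityMeasure (siteMeasure V 1) := by unfold siteMeasure; infer_instance
  have h : ∀ᵐ ω ∂(siteMeasure V 1), HasInf G ω := by
    have h1 : ∀ᵐ ω ∂(siteMeasure V 1), ∀ v : V, ω v = true := by
      rw [ae_all_iff]
      intro v
      have hm : Measure.map (fun ω : V → Bool => ω v) (siteMeasure V 1) =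
          ProbabilityTheory.bernoulliMeasure true false 1 := by
        unfold siteMeasure
        exact Measure.infinitePi_map_eval _ v
      have h2 : ∀ᵐ b ∂(Measure.map (fun ω : V → Bool => ω v) (siteMeasure V 1)), b = true := by
        rw [hm]
        simp
      exact ae_of_ae_map (measurable_pi_apply v).aemeasurable h2
    filter_upwards [h1] with ω hω
    refine ⟨Set.univ, Set.infinite_univ, fun v _ => hω v, ?_⟩
    exact (SimpleGraph.induceUnivIso G).connected_iff.2 hG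
  have h2 : siteMeasure V 1 {ω | HasInf G ω} = 1 := by
    have := prob_compl_eq_zero_iff₀ (μ := siteMeasure V 1) (s := {ω | HasInf G ω})
    rw [ae_iff] at h
    have h3 : siteMeasure V 1 ({ω | HasInf G ω}ᶜ) = 0 := h
    have h4 : (1 : ENNReal) ≤ siteMeasure V 1 {ω | HasInf G ω} := by
      calc (1 : ENNReal) = siteMeasure V 1 Set.univ := measure_univ.symm
        _ = siteMeasure V 1 ({ω | HasInf G ω} ∪ {ω | HasInf G ω}ᶜ) := by rw [Set.union_compl_self]
        _ ≤ siteMeasure V 1 {ω | HasInf G ω} + siteMeasure V 1 ({ω | HasInf G ω}ᶜ) :=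
            measure_union_le _ _
        _ = siteMeasure V 1 {ω | HasInf G ω} := by rw [h3, add_zero]
    exact le_antisymm prob_le_one h4
  rw [h2]
  exact one_pos

theorem main (hTOP : S_TOP) (hCONN : S_CONN) (hGOOD : S_GOOD) (hDEG : S_DEG) (hISO : S_ISO)
    (hISOF : S_ISOF) (hSTEP : S_STEP) (hOSC : S_OSC) (hSUBL : S_SUBL) (hRING : S_RING)
    (hBLOCK : S_BLOCK) (p₀ : ℝ) (hp₀ : p₀ < 1) :
    ∃ G : SimpleGraph (ℤ × ℤ), G.Connected ∧
      (∃ Δ : ℕ, ∀ v, (G.neighborSet v).Finite ∧ (G.neighborSet v).ncard ≤ Δ) ∧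
      IsPlaneTriangulation G ∧ IsoGrowth G ∧
      (∀ p : unitInterval, (p : ℝ) ≤ p₀ → siteMeasure (ℤ × ℤ) p {ω | HasInf G ω} = 0) ∧
      p₀ ≤ pcr G := by
  -- the value of `D`
  set P : ℝ := max p₀ 0 with hP
  have hP1 : P < 1 := max_lt hp₀ one_pos
  have hP0 : 0 ≤ P := le_max_right _ _
  have hq1 : (1 - (1 - P) ^ 4 / 8) < 1 := by
    have : 0 < (1 - P) ^ 4 := by
      have : 0 < 1 - P := by linarith
      positivity
    linarith
  have hq0 : 0 ≤ (1 - (1 - P) ^ 4 / 8) := by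
    have : (1 - P) ^ 4 ≤ 1 := pow_le_one₀ (by linarith) (by linarith)
    linarith
  obtain ⟨D, hD, hDq⟩ := exists_D _ hq0 hq1
  have hDZ : (2 : ℤ) ≤ (D : ℤ) := by exact_mod_cast hD
  have hgood : Good (al D ww) := hGOOD D ww hDZ
  have hconn : (Wall D ww).Connected := hCONN _ hgood
  have hno : ∀ p : unitInterval, (p : ℝ) ≤ p₀ →
      siteMeasure (ℤ × ℤ) p {ω | HasInf (Wall D ww) ω} = 0 := by
    intro p hp
    have hpP : (p : ℝ) ≤ P := hp.trans (le_max_left _ _)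
    refine no_perc hRING hBLOCK D hD p ?_ ?_
    · have : (p : ℝ) < 1 := lt_of_le_of_lt hpP hP1
      exact this
    · refine le_trans (pow_le_pow_left₀ ?_ ?_ D) hDq
      · have h0 : (0 : ℝ) ≤ p := p.2.1
        have : (1 - (p : ℝ)) ^ 4 ≤ 1 := pow_le_one₀ (by linarith) (by linarith)
        linarith
      · have : (1 - P) ^ 4 ≤ (1 - (p : ℝ)) ^ 4 := pow_le_pow_left₀ (by linarith) (by linarith) 4
        linarith
  refine ⟨Wall D ww, hconn, ⟨2 * D + 4, fun v => ⟨(hDEG D ww hDZ v).1, ?_⟩⟩, hTOP _ hgood, ?_,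
    hno, ?_⟩
  · have := (hDEG D ww hDZ v).2
    exact_mod_cast this
  · exact hISOF (ℤ × ℤ) (Wall D ww) inferInstance D (fun n => (lev n + 2) ^ 2) hD hSUBL.2
      (hISO D ww (fun n => (lev n + 2) ^ 2) hD hSTEP hSUBL.1 hOSC)
  · unfold pcr
    apply le_csInf
    · exact ⟨1, ⟨by norm_num, one_mem (Wall D ww) hconn⟩⟩
    · rintro p ⟨h, hpos⟩
      by_contra hlt
      push Not at hlt
      exact hpos.ne' (hno ⟨p, h⟩ hlt.le)

end Pool.Agent.W827.BW
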