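import Mathlib
import Pool.Agent.W827.BW.Stm
import Pool.Agent.W880.BW.U

/-! # Oscillation of the profile -/

set_option autoImplicit false

namespace Pool.Agent.W827.BW

open Pool.Agent.W880.BW

theorem uu_succ' (n : ℕ) : uu (n + 1) = 3 * uu n + 1 := rfl

theorem uu_mono : Monotone uu := by
  apply monotone_nat_of_le_succ
  intro n
  rw [uu_succ']; omega

theorem lev_mono : Monotone lev := by
  intro a b h
  unfold lev
  exact Nat.log_mono_right (by omega)

theorem lev_lt {t n : ℕ} (h : t < uu n) : lev t < n := by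
  by_contra hc
  push Not at hc
  have h1 := (lev_spec t).1
  have h2 := uu_mono hc
  omega

theorem le_lev {t n : ℕ} (h : uu n ≤ t) : n ≤ lev t := by
  by_contra hc
  push Not at hc
  have h1 := (t_LEV t (lev t)).1 rfl
  have h2 := uu_mono (show lev t + 1 ≤ n from hc)
  omega

theorem lev_uu (n : ℕ) : lev (uu n) = n := by
  rw [t_LEV, uu_succ']; omega

theorem rr_uu (n : ℕ) : rr (uu n) = 0 := by
  rw [rr, lev_uu]; omega

theorem UU_uu (n : ℕ) : UU (uu n) = n := by
  rcases Nat.eq_zero_or_pos n with h | h
  · subst h; rfl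
  · rw [UU_rec (uu_pos h), lev_uu, rr_uu, UU_zero, add_zero]

theorem rr_le (t : ℕ) : rr t ≤ uu (lev t) := by
  rw [rr]; omega

theorem UU_bound : ∀ t : ℕ, UU (rr t) ≤ lev t ^ 2 ∧ UU t ≤ lev t * (lev t + 1) := by
  intro t
  induction t using Nat.strong_induction_on with
  | _ t ih =>
    rcases Nat.eq_zero_or_pos t with h0 | h0
    · subst h0
      have : lev 0 = 0 := by rw [t_LEV]; exact ⟨le_rfl, by decide⟩
      rw [this]
      have : rr 0 = 0 := by rw [rr]; omega
      rw [this, UU_zero]; simp
    · have h1 : UU (rr t) ≤ lev t ^ 2 := by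
        rcases Nat.lt_or_ge (rr t) (uu (lev t)) with h | h
        · have h2 := lev_lt h
          have h3 := (ih (rr t) (rr_lt h0)).2
          obtain ⟨n, hn⟩ : ∃ n, lev t = n + 1 := ⟨lev t - 1, by omega⟩
          rw [hn] at h2 ⊢
          calc UU (rr t) ≤ lev (rr t) * (lev (rr t) + 1) := h3
            _ ≤ n * (n + 1) := Nat.mul_le_mul (by omega) (by omega)
            _ ≤ (n + 1) ^ 2 := by nlinarith
        · have h2 : rr t = uu (lev t) := le_antisymm (rr_le t) h
          rw [h2, UU_uu]
          nlinarith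
      refine ⟨h1, ?_⟩
      rw [UU_rec h0]
      nlinarith

/-- the bound for the oscillation -/
def Om (n : ℕ) : ℕ := (lev n + 2) ^ 2

theorem Om_mono : Monotone Om := by
  intro a b h
  unfold Om
  exact Nat.pow_le_pow_left (by have := lev_mono h; omega) 2

/-- the three cases for two times `s < t` -/
theorem pair_cases (s t : ℕ) (h : s < t) :
    (lev t = lev s ∧ rr t ≤ rr s + (t - s) ∧ rr s ≤ rr t + (t - s)) ∨
    (lev t = lev s + 1 ∧ rr t ≤ t - s ∧ rr s ≤ t - s) ∨
    (lev s + 2 ≤ lev t ∧ lev t ≤ lev (t - s) + 1) := by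
  have hs := lev_spec s
  have ht := lev_spec t
  have hm := lev_mono h.le
  rcases Nat.lt_or_ge (lev t) (lev s + 1) with h1 | h1
  · left
    have e : lev t = lev s := by omega
    refine ⟨e, ?_, ?_⟩
    · rw [rr, rr, e]; omega
    · rw [rr, rr, e]; omega
  · right
    rcases Nat.lt_or_ge (lev t) (lev s + 2) with h2 | h2
    · left
      have e : lev t = lev s + 1 := by omega
      have e2 := uu_succ' (lev s)
      rw [← e] at e2
      refine ⟨e, ?_, ?_⟩
      · rw [rr]; omega
      · rw [rr]; omega
    · right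
      refine ⟨h2, ?_⟩
      obtain ⟨n, hn⟩ : ∃ n, lev t = n + 1 := ⟨lev t - 1, by omega⟩
      have h3 : s < uu n := by
        have h4 := (t_LEV s (lev s)).1 rfl
        have h5 := uu_mono (show lev s + 1 ≤ n by omega)
        omega
      rw [hn, uu_succ'] at ht
      have h6 : uu n ≤ t - s := by omega
      have := le_lev h6
      omega

theorem UU_osc : ∀ t s : ℕ, s ≤ t → UU t ≤ UU s + Om (t - s) ∧ UU s ≤ UU t + Om (t - s) := by
  intro t
  induction t using Nat.strong_induction_on with
  | _ t ih =>
    intro s hst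
    rcases Nat.eq_or_lt_of_le hst with h | h
    · subst h; constructor <;> omega
    · have ht0 : 0 < t := by omega
      have hrt := rr_lt ht0
      rcases pair_cases s t h with ⟨h1, h2, h3⟩ | ⟨h1, h2, h3⟩ | ⟨h1, h2⟩
      · have hs0 : 0 < s := by
          rcases Nat.eq_zero_or_pos s with h0 | h0
          · subst h0
            have e0 : lev 0 = 0 := by rw [t_LEV]; exact ⟨le_rfl, by decide⟩
            rw [e0] at h1
            have := (lev_spec t).2
            rw [h1] at this
            have e1 : uu 0 = 0 := rfl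
            omega
          · exact h0
        have hrs := rr_lt hs0
        rw [UU_rec ht0, UU_rec hs0, h1]
        rcases le_total (rr s) (rr t) with h4 | h4
        · have h5 := ih (rr t) hrt (rr s) h4
          have h6 := Om_mono (show rr t - rr s ≤ t - s by omega)
          constructor <;> omega
        · have h5 := ih (rr s) (by omega) (rr t) h4
          have h6 := Om_mono (show rr s - rr t ≤ t - s by omega)
          constructor <;> omega
      · have b1 := (UU_bound (rr t)).2
        have b2 := (UU_bound (rr s)).2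
        have l1 := lev_mono h2
        have l2 := lev_mono h3
        have c1 : UU (rr t) ≤ lev (t - s) * (lev (t - s) + 1) :=
          b1.trans (Nat.mul_le_mul l1 (by omega))
        have c2 : UU (rr s) ≤ lev (t - s) * (lev (t - s) + 1) :=
          b2.trans (Nat.mul_le_mul l2 (by omega))
        have c3 : lev (t - s) * (lev (t - s) + 1) + 1 ≤ Om (t - s) := by
          unfold Om; nlinarith
        rw [UU_rec ht0, h1]
        rcases Nat.eq_zero_or_pos s with h0 | h0
        · subst h0
          have e0 : lev 0 = 0 := by rw [t_LEV]; exact ⟨le_rfl, by decide⟩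
          rw [e0, UU_zero]
          constructor <;> omega
        · rw [UU_rec h0]
          constructor <;> omega
      · have b1 := (UU_bound t).2
        have b2 := (UU_bound s).2
        have c1 : lev t * (lev t + 1) ≤ Om (t - s) := by
          unfold Om
          calc lev t * (lev t + 1) ≤ (lev (t - s) + 1) * (lev (t - s) + 1 + 1) :=
                Nat.mul_le_mul h2 (by omega)
            _ ≤ (lev (t - s) + 2) ^ 2 := by nlinarith
        have c2 : lev s * (lev s + 1) ≤ lev t * (lev t + 1) := Nat.mul_le_mul (by omega) (by omega)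
        constructor <;> omega

theorem wn_osc (s t : ℕ) (h : s ≤ t) :
    |(-(lev s : ℤ) + UU (rr s)) - (-(lev t : ℤ) + UU (rr t))| ≤ Om (t - s) := by
  rcases Nat.eq_or_lt_of_le h with h | h
  · subst h; simp
  · rcases pair_cases s t h with ⟨h1, h2, h3⟩ | ⟨h1, h2, h3⟩ | ⟨h1, h2⟩
    · rw [h1, abs_le]
      rcases le_total (rr s) (rr t) with h4 | h4
      · have h5 := UU_osc (rr t) (rr s) h4
        have h6 := Om_mono (show rr t - rr s ≤ t - s by omega)
        constructor <;> omega
      · have h5 := UU_osc (rr s) (rr t) h4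
        have h6 := Om_mono (show rr s - rr t ≤ t - s by omega)
        constructor <;> omega
    · have b1 := (UU_bound (rr t)).2
      have b2 := (UU_bound (rr s)).2
      have l1 := lev_mono h2
      have l2 := lev_mono h3
      have c1 : UU (rr t) ≤ lev (t - s) * (lev (t - s) + 1) :=
        b1.trans (Nat.mul_le_mul l1 (by omega))
      have c2 : UU (rr s) ≤ lev (t - s) * (lev (t - s) + 1) :=
        b2.trans (Nat.mul_le_mul l2 (by omega))
      have c3 : lev (t - s) * (lev (t - s) + 1) + 1 ≤ Om (t - s) := by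
        unfold Om; nlinarith
      rw [h1, abs_le]
      constructor <;> omega
    · have b1 := (UU_bound t).1
      have b2 := (UU_bound s).1
      have c1 : lev t ^ 2 + lev t ≤ Om (t - s) := by
        unfold Om
        calc lev t ^ 2 + lev t ≤ (lev (t - s) + 1) ^ 2 + (lev (t - s) + 1) :=
              Nat.add_le_add (Nat.pow_le_pow_left h2 2) h2
          _ ≤ (lev (t - s) + 2) ^ 2 := by nlinarith
      have c2 : lev s ^ 2 ≤ lev t ^ 2 := Nat.pow_le_pow_left (by omega) 2
      rw [abs_le]
      constructor <;> omega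

theorem t_OSC : S_OSC := by
  intro s t
  have key : ∀ a b : ℕ, a ≤ b → ∀ d : ℕ, b - a ≤ d →
      |(-(lev a : ℤ) + UU (rr a)) - (-(lev b : ℤ) + UU (rr b))| ≤ (((lev d + 2) ^ 2 : ℕ) : ℤ) := by
    intro a b hab d hd
    refine (wn_osc a b hab).trans ?_
    have := Om_mono hd
    unfold Om at this ⊢
    exact_mod_cast this
  rw [ww, ww]
  rcases le_total s.natAbs t.natAbs with h | h
  · exact key _ _ h _ (by omega)
  · rw [abs_sub_comm]
    exact key _ _ h _ (by omega)

theorem t_SUBL : S_SUBL := by
  refine ⟨Om_mono, ?_⟩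
  intro ε hε
  -- 3 ^ lev n ≤ 2 n + 1
  have h3 : ∀ n : ℕ, 3 ^ lev n ≤ 2 * n + 1 := by
    intro n
    have := (lev_spec n).1
    rw [← uu_pow]; omega
  -- (L + 2)^2 ≤ (ε/2) 3^L + C
  have hlim : Filter.Tendsto (fun L : ℕ => ((L : ℝ) + 2) ^ 2 / 3 ^ L) Filter.atTop (nhds 0) := by
    have e0 := tendsto_pow_const_div_const_pow_of_one_lt 0 (show (1 : ℝ) < 3 by norm_num)
    have e1 := tendsto_pow_const_div_const_pow_of_one_lt 1 (show (1 : ℝ) < 3 by norm_num)
    have e2 := tendsto_pow_const_div_const_pow_of_one_lt 2 (show (1 : ℝ) < 3 by norm_num)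
    have e := (e2.add (e1.const_mul 4)).add (e0.const_mul 4)
    simp only [mul_zero, add_zero] at e
    refine e.congr fun L => ?_
    field_simp
    ring
  have hev := (hlim.eventually (gt_mem_nhds (show (0 : ℝ) < ε / 2 by positivity)))
  obtain ⟨L0, hL0⟩ := Filter.eventually_atTop.1 hev
  refine ⟨((L0 : ℝ) + 2) ^ 2 + ε, fun n => ?_⟩
  push_cast
  have hn : (3 : ℝ) ^ lev n ≤ 2 * n + 1 := by exact_mod_cast h3 n
  rcases Nat.lt_or_ge (lev n) L0 with h | h
  · have h1 : ((lev n : ℝ) + 2) ^ 2 ≤ ((L0 : ℝ) + 2) ^ 2 := by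
      have : (lev n : ℝ) ≤ L0 := by exact_mod_cast h.le
      have : (0 : ℝ) ≤ lev n := by positivity
      gcongr
    have : 0 ≤ ε * n := by positivity
    linarith
  · have h1 := hL0 (lev n) h
    rw [div_lt_iff₀ (by positivity)] at h1
    have h2 : ε / 2 * 3 ^ lev n ≤ ε / 2 * (2 * n + 1) := by gcongr
    have : (0 : ℝ) ≤ ((L0 : ℝ) + 2) ^ 2 := by positivity
    nlinarith

end Pool.Agent.W827.BW
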