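import Mathlib
import Pool.Agent.W827.BW.Stm

/-! # Plane triangulation from the four geometric facts; connectivity; goodness -/

set_option autoImplicit false

open MeasureTheory Filter Topology

namespace Pool.Agent.W827.BW

theorem place_inj : Function.Injective place := by
  rintro ⟨a, b⟩ ⟨c, d⟩ h
  have hre := congrArg Complex.re h
  have him := congrArg Complex.im h
  simp [place] at hre him
  simp [hre, him]

theorem arc_image (u v : ℤ × ℤ) : arc u v '' Set.Icc 0 1 = segment ℝ (place u) (place v) := by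
  rw [segment_eq_image_lineMap]; rfl

theorem draw_iff (α : ℤ → ℤ → ℤ) (y : ℂ) :
    (∀ u v, (RowGraph α).Adj u v → y ∉ arc u v '' Set.Icc 0 1) ↔ y ∉ Draw α := by
  constructor
  · rintro h ⟨a, b, hab, hy⟩
    have hne : a ≠ b := by
      rintro rfl
      rcases hab with ⟨_, h2⟩ | ⟨h1, _⟩
      · omega
      · omega
    have hadj : (RowGraph α).Adj a b := by
      unfold RowGraph; rw [SimpleGraph.fromRel_adj]; exact ⟨hne, Or.inl hab⟩
    exact h a b hadj (by rw [arc_image]; exact hy)
  · intro h u v huv hy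
    rw [arc_image] at hy
    unfold RowGraph at huv
    rw [SimpleGraph.fromRel_adj] at huv
    rcases huv.2 with h1 | h1
    · exact h ⟨u, v, h1, hy⟩
    · exact h ⟨v, u, h1, by rw [segment_symm]; exact hy⟩

theorem t_TOP (h1 : S_TOP1) (h2 : S_TOP2) (h3 : S_TOP3) (h4 : S_TOP4) : S_TOP := by
  intro α hα
  have hset : {y : ℂ | ∀ u v, (RowGraph α).Adj u v → y ∉ arc u v '' Set.Icc 0 1} = (Draw α)ᶜ := by
    ext y; exact draw_iff α y
  refine ⟨place, arc, place_inj, ?_, ?_, ?_, ?_, ?_⟩
  · intro u v huv
    refine ⟨?_, ?_, ?_, ?_, ?_⟩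
    · exact (AffineMap.lineMap_continuous (R := ℝ)).continuousOn
    · have hne : place u ≠ place v := fun h => huv.ne (place_inj h)
      exact (AffineMap.lineMap_injective ℝ hne).injOn
    · simp [arc]
    · simp [arc]
    · rw [arc_image, arc_image, segment_symm]
  · intro u v w huv s hs hw
    apply (h3 α hα).1 u v w huv
    rw [← arc_image, ← hw]
    exact Set.mem_image_of_mem _ hs
  · intro u v x y huv hxy s hs t ht hst
    refine (h3 α hα).2 u v x y huv hxy (arc u v s) ?_ ?_
    · rw [← arc_image]; exact Set.mem_image_of_mem _ hs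
    · rw [← arc_image, hst]; exact Set.mem_image_of_mem _ ht
  · intro K hK
    simp only [arc_image]
    exact h4 α hα K hK
  · intro z hz
    rw [draw_iff] at hz
    obtain ⟨a, b, c, hab, hbc, hca, hind, hempty, hmem⟩ := h2 α hα z hz
    refine ⟨a, b, c, hab, hbc, hca, ?_⟩
    rw [hset, arc_image, arc_image, arc_image]
    have hsub : ∀ u v, (RowGraph α).Adj u v → segment ℝ (place u) (place v) ⊆ Draw α := by
      intro u v huv y hy
      by_contra hcon
      exact (draw_iff α y).2 hcon u v huv (by rw [arc_image]; exact hy)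
    exact h1 _ _ _ hind _ (hsub _ _ hab) (hsub _ _ hbc) (hsub _ _ hca) hempty z hmem

theorem adj_of_rel {α : ℤ → ℤ → ℤ} {a b : ℤ × ℤ} (h : RowRel α a b) : (RowGraph α).Adj a b := by
  unfold RowGraph
  rw [SimpleGraph.fromRel_adj]
  refine ⟨?_, Or.inl h⟩
  rintro rfl
  rcases h with ⟨_, h2⟩ | ⟨h1, _⟩
  · omega
  · omega

theorem t_CONN : S_CONN := by
  intro α hα
  have hrow : ∀ (t i : ℤ), (RowGraph α).Reachable (t, 0) (t, i) := by
    intro t i
    induction i using Int.induction_on with
    | zero => exact SimpleGraph.Reachable.refl _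
    | succ n ih =>
      exact ih.trans (adj_of_rel (α := α) (a := (t, (n : ℤ))) (b := (t, (n : ℤ) + 1))
        (Or.inl ⟨rfl, rfl⟩)).reachable
    | pred n ih =>
      refine ih.trans (SimpleGraph.Adj.reachable ?_)
      exact (adj_of_rel (α := α) (a := (t, -(n : ℤ) - 1)) (b := (t, -(n : ℤ)))
        (Or.inl ⟨rfl, by simp⟩)).symm
  have hup : ∀ t : ℤ, (RowGraph α).Reachable (t, 0) (t + 1, 0) := by
    intro t
    have h1 : (RowGraph α).Adj (t, 0) (t + 1, α t 0) :=
      adj_of_rel (Or.inr ⟨rfl, le_rfl, hα.mono t (by simp)⟩)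
    exact h1.reachable.trans (hrow (t + 1) (α t 0)).symm
  have hcol : ∀ t : ℤ, (RowGraph α).Reachable (0, 0) (t, 0) := by
    intro t
    induction t using Int.induction_on with
    | zero => exact SimpleGraph.Reachable.refl _
    | succ n ih => exact ih.trans (hup _)
    | pred n ih =>
      have := hup (-(n : ℤ) - 1)
      rw [sub_add_cancel] at this
      exact ih.trans this.symm
  have : Nonempty (ℤ × ℤ) := ⟨(0, 0)⟩
  refine SimpleGraph.Connected.mk ?_
  rintro ⟨t, i⟩ ⟨t', i'⟩
  exact ((hcol t).trans (hrow t i)).symm.trans ((hcol t').trans (hrow t' i'))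

theorem t_GOOD : S_GOOD := by
  intro D w hD
  refine ⟨?_, ?_, ?_⟩
  · intro t i j hij
    unfold al
    split_ifs
    · have : i * D ≤ j * D := mul_le_mul_of_nonneg_right hij (by omega)
      omega
    · exact Int.ediv_le_ediv (by omega) hij
  · intro t M
    unfold al
    split_ifs
    · refine ⟨-|M| - 1, ?_⟩
      have h1 := neg_abs_le M
      have h2 := abs_nonneg M
      nlinarith
    · refine ⟨M * D, ?_⟩
      rw [Int.mul_ediv_cancel _ (by omega)]
  · intro t M
    unfold al
    split_ifs
    · refine ⟨|M| + 1, ?_⟩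
      have h1 := le_abs_self M
      have h2 := abs_nonneg M
      nlinarith
    · refine ⟨M * D, ?_⟩
      rw [Int.mul_ediv_cancel _ (by omega)]

end Pool.Agent.W827.BW
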