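import Mathlib
import Pool.Agent.W827.BW.Stm

/-! # Local finiteness of the drawing -/

set_option autoImplicit false

namespace Pool.Agent.W827.BW

theorem seg_coord {a b : ℤ × ℤ} {z : ℂ} (h : z ∈ segment ℝ (place a) (place b)) :
    ∃ x y : ℝ, 0 ≤ x ∧ 0 ≤ y ∧ x + y = 1 ∧ z.re = x * a.2 + y * b.2 ∧ z.im = x * a.1 + y * b.1 := by
  obtain ⟨x, y, hx, hy, hxy, rfl⟩ := h
  refine ⟨x, y, hx, hy, hxy, ?_, ?_⟩ <;> simp [place]

theorem rel_finite (α : ℤ → ℤ → ℤ) (hα : Good α) (M : ℤ) (hM : 0 ≤ M) :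
    {p : (ℤ × ℤ) × (ℤ × ℤ) | RowRel α p.1 p.2 ∧ ∃ z ∈ segment ℝ (place p.1) (place p.2),
      |z.re| ≤ M ∧ |z.im| ≤ M}.Finite := by
  have hhi : ∀ t : ℤ, ∃ i : ℤ, M < i ∧ M < α t i := by
    intro t
    obtain ⟨i, hi⟩ := hα.above t (M + 1)
    refine ⟨max i (M + 1), by omega, ?_⟩
    have := hα.mono t (le_max_left i (M + 1))
    omega
  have hlo : ∀ t : ℤ, ∃ i : ℤ, i < -M ∧ α t i < -M := by
    intro t
    obtain ⟨i, hi⟩ := hα.below t (-M - 1)
    refine ⟨min i (-M - 1), by omega, ?_⟩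
    have := hα.mono t (min_le_left i (-M - 1))
    omega
  choose hi hhi1 hhi2 using hhi
  choose lo hlo1 hlo2 using hlo
  have hfin : (⋃ t ∈ Set.Icc (-M - 1) (M + 1), ⋃ i ∈ Set.Icc (lo t - 1) (hi t),
      (({(((t, i) : ℤ × ℤ), ((t, i + 1) : ℤ × ℤ))} : Set ((ℤ × ℤ) × (ℤ × ℤ))) ∪
        (fun j : ℤ => (((t, i) : ℤ × ℤ), ((t + 1, j) : ℤ × ℤ))) ''
          Set.Icc (α t i) (α t (i + 1)))).Finite := by
    refine (Set.finite_Icc _ _).biUnion fun t _ => ?_
    refine (Set.finite_Icc _ _).biUnion fun i _ => ?_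
    exact (Set.finite_singleton _).union ((Set.finite_Icc _ _).image _)
  refine hfin.subset ?_
  rintro ⟨⟨t, i⟩, ⟨t', j⟩⟩ ⟨hrel, z, hz, hzre, hzim⟩
  obtain ⟨x, y, hx, hy, hxy, hre, him⟩ := seg_coord hz
  rw [abs_le] at hzre hzim
  simp only at hre him
  have hxe : x = 1 - y := by linarith
  subst hxe
  rcases hrel with ⟨h1, h2⟩ | ⟨h1, h2, h3⟩
  · simp only at h1 h2
    subst h1; subst h2
    push_cast at hre
    have e1 : z.im = t' := by rw [him]; ring
    have e2 : z.re = i + y := by rw [hre]; ring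
    have a1 : (-M : ℝ) ≤ t' := by linarith [hzim.1]
    have a2 : (t' : ℝ) ≤ M := by linarith [hzim.2]
    have a3 : (-M : ℝ) ≤ i + 1 := by linarith [hzre.1]
    have a4 : (i : ℝ) ≤ M := by linarith [hzre.2]
    have b1 : -M ≤ t' := by exact_mod_cast a1
    have b2 : t' ≤ M := by exact_mod_cast a2
    have b3 : -M ≤ i + 1 := by exact_mod_cast a3
    have b4 : i ≤ M := by exact_mod_cast a4
    simp only [Set.mem_iUnion]
    refine ⟨t', ⟨by omega, by omega⟩, i, ⟨?_, ?_⟩, Or.inl rfl⟩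
    · have := hlo1 t'; omega
    · have := hhi1 t'; omega
  · simp only at h1 h2 h3
    subst h1
    push_cast at him
    have e1 : z.im = t + y := by rw [him]; ring
    have a1 : (-M : ℝ) ≤ t + 1 := by linarith [hzim.1]
    have a2 : (t : ℝ) ≤ M := by linarith [hzim.2]
    have b1 : -M ≤ t + 1 := by exact_mod_cast a1
    have b2 : t ≤ M := by exact_mod_cast a2
    simp only [Set.mem_iUnion]
    refine ⟨t, ⟨by omega, by omega⟩, i, ⟨?_, ?_⟩, Or.inr ⟨j, ⟨h2, h3⟩, rfl⟩⟩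
    · by_contra hc
      push Not at hc
      have c1 : i + 1 ≤ lo t := by omega
      have c2 := hα.mono t c1
      have c3 := hlo1 t
      have c4 := hlo2 t
      have c5 : i ≤ -M - 1 := by omega
      have c6 : j ≤ -M - 1 := by omega
      have d5 : (i : ℝ) ≤ -M - 1 := by exact_mod_cast c5
      have d6 : (j : ℝ) ≤ -M - 1 := by exact_mod_cast c6
      have : z.re ≤ (1 - y) * (-M - 1) + y * (-M - 1) := by
        rw [hre]
        exact add_le_add (mul_le_mul_of_nonneg_left d5 hx) (mul_le_mul_of_nonneg_left d6 hy)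
      linarith [hzre.1]
    · by_contra hc
      push Not at hc
      have c1 : hi t ≤ i := by omega
      have c2 := hα.mono t c1
      have c3 := hhi1 t
      have c4 := hhi2 t
      have c5 : M + 1 ≤ i := by omega
      have c6 : M + 1 ≤ j := by omega
      have d5 : (M : ℝ) + 1 ≤ i := by exact_mod_cast c5
      have d6 : (M : ℝ) + 1 ≤ j := by exact_mod_cast c6
      have : (1 - y) * (M + 1) + y * (M + 1) ≤ z.re := by
        rw [hre]
        exact add_le_add (mul_le_mul_of_nonneg_left d5 hx) (mul_le_mul_of_nonneg_left d6 hy)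
      linarith [hzre.2]

theorem t_TOP4 : S_TOP4 := by
  intro α hα K hK
  obtain ⟨R, hR⟩ := hK.isBounded.exists_norm_le
  obtain ⟨M, hM⟩ := exists_nat_ge R
  have h1 := rel_finite α hα M (by positivity)
  have h2 : (Prod.swap '' {p : (ℤ × ℤ) × (ℤ × ℤ) | RowRel α p.1 p.2 ∧
      ∃ z ∈ segment ℝ (place p.1) (place p.2), |z.re| ≤ (M : ℤ) ∧ |z.im| ≤ (M : ℤ)}).Finite :=
    h1.image _
  refine (h1.union h2).subset ?_
  rintro ⟨a, b⟩ ⟨hadj, z, hz, hzK⟩
  have hb1 : |z.re| ≤ ((M : ℤ) : ℝ) := by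
    push_cast
    exact (Complex.abs_re_le_norm z).trans ((hR z hzK).trans hM)
  have hb2 : |z.im| ≤ ((M : ℤ) : ℝ) := by
    push_cast
    exact (Complex.abs_im_le_norm z).trans ((hR z hzK).trans hM)
  simp only at hadj
  unfold RowGraph at hadj
  rw [SimpleGraph.fromRel_adj] at hadj
  rcases hadj.2 with h | h
  · left
    exact ⟨h, z, hz, hb1, hb2⟩
  · right
    refine ⟨(b, a), ⟨h, z, ?_, hb1, hb2⟩, rfl⟩
    rw [segment_symm]
    exact hz

end Pool.Agent.W827.BW
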