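import Mathlib
import Pool.Agent.W827.BW.Asm
import Pool.Agent.W827.BW.Top
import Pool.Agent.W827.BW.Osc
import Pool.Agent.W827.BW.Top4
import Pool.Agent.W932.BW.Top1
import Pool.Agent.W397.BW.Top2
import Pool.Agent.W932.BW.Top3
import Pool.Agent.W880.BW.Deg
import Pool.Agent.W407.BW.Iso
import Pool.Agent.W880.BW.U
import Pool.Agent.W308.BW.EXC
import Pool.Agent.W439.BW.Rel
import Pool.Agent.W427.BW.Ring
import Pool.Agent.W308.BW.BLOCK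

/-! # The brick wall disproof, all steps put together -/

set_option autoImplicit false

open MeasureTheory Filter Topology

namespace Pool.Agent.W827.BW

theorem final0 (hTOP4 : S_TOP4) (hOSC : S_OSC) (hSUBL : S_SUBL) (p₀ : ℝ) (hp₀ : p₀ < 1) :
    ∃ G : SimpleGraph (ℤ × ℤ), G.Connected ∧
      (∃ Δ : ℕ, ∀ v, (G.neighborSet v).Finite ∧ (G.neighborSet v).ncard ≤ Δ) ∧
      IsPlaneTriangulation G ∧ IsoGrowth G ∧
      (∀ p : unitInterval, (p : ℝ) ≤ p₀ → siteMeasure (ℤ × ℤ) p {ω | HasInf G ω} = 0) ∧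
      p₀ ≤ pcr G :=
  main (t_TOP Pool.Agent.W932.BW.t_TOP1 Pool.Agent.W397.BW.t_TOP2 Pool.Agent.W932.BW.t_TOP3 hTOP4)
    t_CONN t_GOOD Pool.Agent.W880.BW.t_DEG
    (Pool.Agent.W407.BW.t_ISO Pool.Agent.W880.BW.t_DEG) Pool.Agent.W880.BW.t_ISOF
    Pool.Agent.W880.BW.t_STEP hOSC hSUBL
    (Pool.Agent.W427.BW.t_RING (Pool.Agent.W308.BW.t_EXC Pool.Agent.W880.BW.t_LEV
      Pool.Agent.W880.BW.t_UREC) Pool.Agent.W439.BW.Rel.t_EXCB Pool.Agent.W439.BW.Rel.t_REL)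
    (Pool.Agent.W308.BW.t_BLOCK Pool.Agent.W880.BW.t_LEV Pool.Agent.W880.BW.t_STEP) p₀ hp₀

theorem final (p₀ : ℝ) (hp₀ : p₀ < 1) :
    ∃ G : SimpleGraph (ℤ × ℤ), G.Connected ∧
      (∃ Δ : ℕ, ∀ v, (G.neighborSet v).Finite ∧ (G.neighborSet v).ncard ≤ Δ) ∧
      IsPlaneTriangulation G ∧ IsoGrowth G ∧
      (∀ p : unitInterval, (p : ℝ) ≤ p₀ → siteMeasure (ℤ × ℤ) p {ω | HasInf G ω} = 0) ∧
      p₀ ≤ pcr G :=
  final0 t_TOP4 t_OSC t_SUBL p₀ hp₀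

end Pool.Agent.W827.BW
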